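import Pool.Agent.N687.W.A6

/-!
# The circle problem: no window is calmer than the limit law

The error term `P(x)/√x` is smoothed from both sides; its pairing with a character over an arbitrary window
`[R, R + H]` is `c H + o(H)` uniformly in `R` (`Pool.Agent.N687.W.pair_ch`).  A convex function is bounded
from below by its tangents; the tangent used at the radius `x` is chosen by a Bernstein partition of unity
evaluated at a partial sum of the Voronoi series, so that the slope is a trigonometric polynomial in `x` and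
only pairings of the error term with finitely many characters occur (`Pool.Agent.N687.W.dom_PL`).  No upper
bound for the error term in the window is needed, and none is available there.
-/

set_option autoImplicit false

open MeasureTheory Filter Topology

namespace Pool.Agent.Results.MP_fb29e9_nt.ConvexInEveryWindow

open Pool.Agent.N687.W
open Pool.Agent.H383.Gauss (En F)
open Pool.Agent.H383.Circ (ag rA_card)

/-- **Convex domination in every window.** Let `P(x) = #{p ∈ ℤ² : |p| ≤ x} - πx²`, and let `ν` be the limit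
law of `P(x)/√x` (Heath-Brown, Bleher; mean `0`, variance `∑ r(m)² / (2π² m^{3/2})`, full support).
(1) For every convex `Φ : ℝ → ℝ` and every `A < ∫ Φ dν` (every real `A`, if the integral is infinite) there is
`H₀` such that `(1/H) ∫_R^{R+H} Φ(P(x)/√x) dx ≥ A` for **all** windows `[R, R + H]` with `R ≥ 1`, `H ≥ H₀`,
however short they are compared with `R`. For instance all moments `∫ |P(x)/√x|^p dx`, `p ≥ 1`, the
moments of the positive and of the negative part, and all exponential moments are in every window asymptotically at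
least as large as in the limit law; and the mean over every window tends to `0` uniformly (`Φ(x) = ± x`).
(2) This is sharp: if `Φ` has at most quadratic growth, then for all `ε, H > 0` some window has
`(1/H) ∫_R^{R+H} Φ(P(x)/√x) dx ≤ ∫ Φ dν + ε`. So `inf_{R ≥ 1} (1/H) ∫_R^{R+H} Φ(P(x)/√x) dx → ∫ Φ dν`. -/
theorem result (P : ℝ → ℝ)
    (hP : ∀ R : ℝ, P R = (Nat.card {p : ℤ × ℤ // (p.1 : ℝ) ^ 2 + (p.2 : ℝ) ^ 2 ≤ R ^ 2} : ℝ) - Real.pi * R ^ 2)
    (r : ℕ → ℕ) (hr : ∀ m : ℕ, r m = Nat.card {p : ℤ × ℤ // p.1 ^ 2 + p.2 ^ 2 = (m : ℤ)}) :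
    ∃ ν : ProbabilityMeasure ℝ,
      (∀ u v : ℝ, u < v → 0 < (ν : Measure ℝ) (Set.Ioo u v)) ∧
      Integrable (fun x : ℝ => x ^ 2) (ν : Measure ℝ) ∧
      ∫ x, x ∂(ν : Measure ℝ) = 0 ∧
      HasSum (fun m : ℕ => (r m : ℝ) ^ 2 / (2 * Real.pi ^ 2) * (m : ℝ) ^ (-(3 / 2) : ℝ)) (∫ x, x ^ 2 ∂(ν : Measure ℝ)) ∧
      (∀ f : ℝ → ℝ, Continuous f → (∃ C : ℝ, ∀ x, |f x| ≤ C * (1 + x ^ 2)) →
        Tendsto (fun T : ℝ => (∫ x in T..(2 * T), f (P x / √x)) / T) atTop (𝓝 (∫ x, f x ∂(ν : Measure ℝ)))) ∧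
      (∀ Φ : ℝ → ℝ, ConvexOn ℝ Set.univ Φ → ∀ A : ℝ,
        (Integrable Φ (ν : Measure ℝ) → A < ∫ x, Φ x ∂(ν : Measure ℝ)) →
        ∃ H₀ : ℝ, ∀ R H : ℝ, 1 ≤ R → H₀ ≤ H → A * H ≤ ∫ x in R..(R + H), Φ (P x / √x)) ∧
      (∀ Φ : ℝ → ℝ, ConvexOn ℝ Set.univ Φ → (∃ C : ℝ, ∀ x, |Φ x| ≤ C * (1 + x ^ 2)) →
        ∀ ε H : ℝ, 0 < ε → 0 < H → ∃ R : ℝ, 1 ≤ R ∧
          ∫ x in R..(R + H), Φ (P x / √x) ≤ (∫ x, Φ x ∂(ν : Measure ℝ) + ε) * H) := by
  have hPE : ∀ R : ℝ, P R / √R = En R := by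
    intro R
    rw [hP]
    rfl
  obtain ⟨ν, G, h1, h2, h3, h4, h5, h6, h7, h8⟩ := En_law
  refine ⟨ν, h4, h5, h6, ?_, ?_, ?_, ?_⟩
  · convert h7 using 1
    funext m
    rcases Nat.eq_zero_or_pos m with rfl | hm
    · rw [if_neg (by norm_num), Nat.cast_zero, Real.zero_rpow (by norm_num), mul_zero]
    · have hm0 : (0 : ℝ) < m := by exact_mod_cast hm
      rw [if_pos (by omega)]
      unfold ag
      rw [rA_card, ← hr, mul_pow, ← Real.rpow_natCast (√(m : ℝ) ^ (-(3 / 2) : ℝ)), ← Real.rpow_mul (Real.sqrt_nonneg _), Real.sqrt_eq_rpow,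
        ← Real.rpow_mul hm0.le]
      norm_num
      have := Real.pi_ne_zero
      field_simp
  · intro f hf hC
    simp only [hPE, two_mul]
    rw [Metric.tendsto_atTop]
    intro ε hε
    obtain ⟨T₀, hT₀⟩ := h8 f hf hC (ε / 2) (by positivity)
    refine ⟨T₀, fun T hT => ?_⟩
    rw [Real.dist_eq]
    exact (hT₀ T hT).trans_lt (by linarith)
  · intro Φ hΦ A hA
    simp only [hPE]
    obtain ⟨H₀, _, h9⟩ := dom_En h5 h8 hΦ hA
    exact ⟨H₀, h9⟩
  · intro Φ hΦ hC ε H hε hH
    simp only [hPE]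
    exact sharp_En h8 (conv_cont hΦ) hC hε hH

end Pool.Agent.Results.MP_fb29e9_nt.ConvexInEveryWindow
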