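import Pool.Agent.N48.Ann.AN4

/-!
# The Gauss circle problem at integer radii: thin annuli outside the circle have too many points

For real `0 ≤ r ≤ s` let `surplus r s = #{p ∈ ℤ² : r < |p| ≤ s} - π (s² - r²)`. For almost all integers
`n`, the thin annulus just outside the circle of radius `n` has about `(8√2/π) √(nρ) log (1/ρ)` more
lattice points than its area (`ρ` the width), which is larger by a factor `√(log (1/ρ))` than the
root mean square of the fluctuations; the annulus just inside has no such excess. This holds with a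
rate, uniformly in the width `N^(-c) ≤ ρ ≤ 1/10`, and in all short windows `(k, k + N]` with
`N ≥ k^(1/2 + ε)`. The case `k = N` is a dyadic block.
-/

set_option autoImplicit false

namespace Pool.Agent.Results.MP_fb29e9_nt.ThinAnnuli

/-- number of lattice points `p` with `r < |p| ≤ s`, minus the area of the annulus -/
noncomputable def surplus (r s : ℝ) : ℝ :=
  (Nat.card {p : ℤ × ℤ // r ^ 2 < (p.1 : ℝ) ^ 2 + (p.2 : ℝ) ^ 2 ∧
    (p.1 : ℝ) ^ 2 + (p.2 : ℝ) ^ 2 ≤ s ^ 2} : ℝ) - Real.pi * (s ^ 2 - r ^ 2)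

lemma cheb (s : Finset ℕ) (f : ℕ → ℝ) {A t : ℝ} (ht : 0 < t) (h : ∑ n ∈ s, (f n)^2 ≤ A) (P : ℕ → Prop) [DecidablePred P]
    (hP : ∀ n ∈ s, P n → t ≤ |f n|) : ((s.filter P).card : ℝ) ≤ A / t^2 := by
  rw [le_div_iff₀ (by positivity)]
  calc ((s.filter P).card : ℝ) * t^2 = ∑ n ∈ s.filter P, t^2 := by
        rw [Finset.sum_const, nsmul_eq_mul]
    _ ≤ ∑ n ∈ s.filter P, (f n)^2 := by
        apply Finset.sum_le_sum
        intro n hn
        rw [Finset.mem_filter] at hn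
        rw [← sq_abs (f n)]
        exact pow_le_pow_left₀ ht.le (hP n hn.1 hn.2) 2
    _ ≤ ∑ n ∈ s, (f n)^2 := Finset.sum_le_sum_of_subset_of_nonneg (Finset.filter_subset _ _) (fun _ _ _ => sq_nonneg _)
    _ ≤ A := h

open Classical in
/-- **Thin annuli at integer radii.** For every `ε > 0` there are `c, C > 0` such that for all large
`N`, all `k` with `k^(1/2 + ε) ≤ N` and all widths `N^(-c) ≤ ρ ≤ 1/10`: over the integers
`n ∈ (k, k + N]`, the normalised surplus `surplus n (n + ρ) / √n` of the annulus just outside the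
circle of radius `n` is `(8√2/π) √ρ log (1/ρ)` up to a root mean square error `O(√(ρ log (1/ρ)))`,
and that of the annulus just inside is `0` up to the same error; consequently all but
`C N / (δ² log (1/ρ))` of these `n` have an outer surplus within `δ √(nρ) log (1/ρ)` of
`(8√2/π) √(nρ) log (1/ρ)` and an inner surplus at most `δ √(nρ) log (1/ρ)` in absolute value. -/
theorem result : ∀ ε : ℝ, 0 < ε → ∃ c : ℝ, 0 < c ∧ ∃ C : ℝ, 0 < C ∧ ∃ N₀ : ℕ, ∀ N : ℕ, N₀ ≤ N →
    ∀ k : ℕ, (k : ℝ) ^ (1 / 2 + ε) ≤ N → ∀ ρ : ℝ, (N : ℝ) ^ (-c) ≤ ρ → ρ ≤ 1 / 10 →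
      ∑ n ∈ Finset.Ioc k (k + N),
        (surplus n (n + ρ) / √n - 8 * √2 / Real.pi * √ρ * Real.log (1 / ρ)) ^ 2 ≤
          C * N * ρ * Real.log (1 / ρ) ∧
      ∑ n ∈ Finset.Ioc k (k + N), (surplus (n - ρ) n / √n) ^ 2 ≤ C * N * ρ * Real.log (1 / ρ) ∧
      ∀ δ : ℝ, 0 < δ →
        (((Finset.Ioc k (k + N)).filter (fun n : ℕ => δ * √(n * ρ) * Real.log (1 / ρ) ≤
          |surplus n (n + ρ) - 8 * √2 / Real.pi * √(n * ρ) * Real.log (1 / ρ)|)).card : ℝ) ≤
            C * N / (δ ^ 2 * Real.log (1 / ρ)) ∧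
        (((Finset.Ioc k (k + N)).filter (fun n : ℕ => δ * √(n * ρ) * Real.log (1 / ρ) ≤
          |surplus (n - ρ) n|)).card : ℝ) ≤ C * N / (δ ^ 2 * Real.log (1 / ρ)) := by
  intro ε hε
  obtain ⟨c, hc, C, hC, N0, h⟩ := Pool.Agent.N48.Ann.ms_all hε
  refine ⟨c, hc, C, hC, max N0 1, ?_⟩
  intro N hN k hk ρ hρl hρu
  have hNN0 : N0 ≤ N := by omega
  have hN1 : 1 ≤ N := by omega
  have hN0 : (0 : ℝ) < N := by exact_mod_cast hN1
  have hρ0 : 0 < ρ := lt_of_lt_of_le (by positivity) hρl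
  have hlog := Pool.Agent.N48.Ann.log_ge hρ0 hρu
  have hL : 0 < Real.log (1 / ρ) := by linarith
  have hsρ : 0 < √ρ := Real.sqrt_pos.mpr hρ0
  have hsq : √ρ ^ 2 = ρ := Real.sq_sqrt hρ0.le
  obtain ⟨h1, h2⟩ := h N hNN0 k hk ρ hρl hρu
  have e1 : C * (N * (ρ * Real.log (1 / ρ))) = C * N * ρ * Real.log (1 / ρ) := by ring
  rw [e1] at h1 h2
  refine ⟨h1, h2, ?_⟩
  intro δ hδ
  have ht : 0 < δ * √ρ * Real.log (1 / ρ) := by positivity
  have e2 : C * N * ρ * Real.log (1 / ρ) / (δ * √ρ * Real.log (1 / ρ)) ^ 2 = C * N / (δ ^ 2 * Real.log (1 / ρ)) := by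
    rw [mul_pow, mul_pow, hsq]
    field_simp
  have hpos : ∀ n ∈ Finset.Ioc k (k + N), 0 < √(n:ℝ) := by
    intro n hn
    rw [Finset.mem_Ioc] at hn
    apply Real.sqrt_pos.mpr
    have : 0 < n := by omega
    exact_mod_cast this
  rw [← e2]
  constructor
  · apply cheb _ (fun n : ℕ => surplus n (n + ρ) / √n - 8 * √2 / Real.pi * √ρ * Real.log (1 / ρ)) ht h1
    intro n hn hP
    have hn0 := hpos n hn
    rw [Real.sqrt_mul (Nat.cast_nonneg n)] at hP
    have e3 : surplus n (n + ρ) / √n - 8 * √2 / Real.pi * √ρ * Real.log (1 / ρ) =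
        (surplus n (n + ρ) - 8 * √2 / Real.pi * (√n * √ρ) * Real.log (1 / ρ)) / √n := by
      field_simp
    rw [e3, abs_div, abs_of_pos hn0, le_div_iff₀ hn0]
    calc _ = δ * (√n * √ρ) * Real.log (1 / ρ) := by ring
      _ ≤ _ := hP
  · apply cheb _ (fun n : ℕ => surplus (n - ρ) n / √n) ht h2
    intro n hn hP
    have hn0 := hpos n hn
    rw [Real.sqrt_mul (Nat.cast_nonneg n)] at hP
    rw [abs_div, abs_of_pos hn0, le_div_iff₀ hn0]
    calc _ = δ * (√n * √ρ) * Real.log (1 / ρ) := by ring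
      _ ≤ _ := hP

end Pool.Agent.Results.MP_fb29e9_nt.ThinAnnuli
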