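import Pool.Agent.N687.W.C12

/-!
# The circle problem: superlinearly many crossings of every level in every window

Write `E(x) = P(x)/√x`. Split the Voronoi series of `E` at the square class `D`: the part `E_D` from the
square classes `≥ D` has variance `V(D)` with `V(D) √D → ∞` (a lower bound for the number of sums of two
squares with many representations, weighted). The mean of `|E - c|` over any window is asymptotically at least
its value for the limit law (a convex function, `low_dev`), which exceeds the value for the law of the part from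
the classes `< D` by `≥ c₁ V(D)` (`gap_main`: independence of the two parts and positivity of the density of the
limit law at `c`). On the other hand this excess is at most the pairing of `E_D` with the sign of `E - c`, which
is small if the sign changes rarely (`up_pair`: the Fourier coefficients of a function with few jumps decay, and
no upper bound for `E` inside the window is used). Letting `D → ∞` gives the result.
-/

set_option autoImplicit false

namespace Pool.Agent.Results.MP_fb29e9_nt.ZerosAtEveryLevel

open Pool.Agent.N687.W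
open Pool.Agent.H383.Gauss (En F)

/-- **Superlinearly many crossings of every level in every window.** Let `P(x) = #{p ∈ ℤ² : |p| ≤ x} - πx²`.
For every `A` and every `K`, however large, there is `H₀` such that for every level `|c| ≤ A` and **every**
window `[R, R + H]` with `R ≥ 0` and `H ≥ H₀` there are at least `K H` points `z` in the window at which
`P(x) - c√x` vanishes and changes sign from `+` to `-`. (Between two of them it also changes sign from `-` to
`+`.) -/
theorem result (P : ℝ → ℝ)
    (hP : ∀ R : ℝ, P R = (Nat.card {p : ℤ × ℤ // (p.1 : ℝ) ^ 2 + (p.2 : ℝ) ^ 2 ≤ R ^ 2} : ℝ) - Real.pi * R ^ 2) :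
    ∀ A K : ℝ, ∃ H₀ : ℝ, ∀ c : ℝ, |c| ≤ A → ∀ R H : ℝ, 0 ≤ R → H₀ ≤ H →
      ∃ S : Finset ℝ,
        (∀ z ∈ S, z ∈ Set.Icc R (R + H) ∧ P z = c * √z ∧
          ∃ δ : ℝ, 0 < δ ∧ (∀ x ∈ Set.Ioo (z - δ) z, c * √x < P x) ∧ ∀ x ∈ Set.Ioo z (z + δ), P x < c * √x) ∧
        K * H ≤ S.card := by
  have hPF : ∀ x, P x = F x - Real.pi * x^2 := fun x => by rw [hP]; rfl
  intro A K
  obtain ⟨H₀, h⟩ := many A K
  refine ⟨H₀, fun c hc R H hR hH => ?_⟩
  obtain ⟨S, h1, h2⟩ := h c hc R H hR hH
  refine ⟨S, fun z hz => ?_, h2⟩
  obtain ⟨k1, k2, k3, δ, k4, k5, k6⟩ := h1 z hz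
  unfold qc at k3 k5 k6
  refine ⟨⟨k1, k2⟩, by rw [hPF, k3]; ring, δ, k4, fun x hx => ?_, fun x hx => ?_⟩
  · have := k5 x hx.1 hx.2
    rw [hPF]; linarith
  · have := k6 x hx.1 hx.2
    rw [hPF]; linarith

end Pool.Agent.Results.MP_fb29e9_nt.ZerosAtEveryLevel
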